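import Mathlib

/-!
The numerical part of the Erdos-Selfridge-Beck criterion for cliques, with additive precision.
-/

set_option autoImplicit false

namespace Pool.Agent.W629.CG

open Filter

/-- `2 log_{1+b} N - 2 log_{1+b} log_{1+b} N` -/
noncomputable def thr (b N : ℕ) : ℝ :=
  2 * Real.logb (1 + b) N - 2 * Real.logb (1 + b) (Real.logb (1 + b) N)

theorem small (b : ℕ) (hb : 1 ≤ b) : ∃ N₀ : ℕ, ∀ N : ℕ, N₀ ≤ N → ∀ q : ℕ,
    thr b N + 3 + 4 / Real.log (1 + b) ≤ q →
    (1 + b : ℝ) * ((N.choose q : ℝ) * (1 / (1 + b : ℝ)) ^ (q.choose 2)) < 1 := by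
  have hbR : (1 : ℝ) ≤ b := by exact_mod_cast hb
  have hc1 : (1 : ℝ) < 1 + b := by linarith
  have hc0 : (0 : ℝ) < 1 + b := by linarith
  set lc := Real.log (1 + b) with hlc
  have hlc0 : 0 < lc := Real.log_pos hc1
  have hL : Tendsto (fun N : ℕ => Real.logb (1 + b : ℝ) N) atTop atTop :=
    (Real.tendsto_logb_atTop hc1).comp tendsto_natCast_atTop_atTop
  have hlog : ∀ᶠ x : ℝ in atTop, 2 * Real.log x / lc ≤ x := by
    have h4 := Real.isLittleO_log_id_atTop.def (show 0 < lc / 2 by positivity)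
    filter_upwards [h4, eventually_ge_atTop (1 : ℝ)] with x hx hx2
    rw [Real.norm_of_nonneg (Real.log_nonneg hx2), id, Real.norm_of_nonneg (by linarith)] at hx
    rw [div_le_iff₀ hlc0]
    linarith
  obtain ⟨N₀, hN₀⟩ := eventually_atTop.1 ((hL.eventually hlog).and
    ((hL.eventually_ge_atTop 1).and (eventually_ge_atTop (1 : ℕ))))
  refine ⟨N₀, fun N hN q hq => ?_⟩
  obtain ⟨h1, h2, h3⟩ := hN₀ N hN
  set L := Real.logb (1 + b : ℝ) N with hLd
  have hN0 : (0 : ℝ) < N := by exact_mod_cast h3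
  have hLN : L * lc = Real.log N := by
    rw [hLd, Real.logb, ← hlc, div_mul_cancel₀ _ hlc0.ne']
  have hthr : thr b N = 2 * L - 2 * Real.log L / lc := by
    unfold thr
    rw [← hLd, Real.logb, ← hlc]; ring
  rw [hthr] at hq
  have h4c : 0 < 4 / lc := by positivity
  have hqL : L ≤ q := by linarith
  have hq0 : (0 : ℝ) < q := by linarith
  have hq1 : (1 : ℝ) ≤ q := by linarith
  have hL0 : 0 < L := by linarith
  have hlogq : Real.log L ≤ Real.log q := Real.log_le_log hL0 hqL
  -- the binomial coefficient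
  have hch : (N.choose q : ℝ) ≤ Real.exp (q * (1 + Real.log N - Real.log q)) := by
    have e1 : (N.choose q : ℝ) ≤ (N : ℝ) ^ q / (q.factorial : ℝ) := Nat.choose_le_pow_div q N
    have e2 : (q : ℝ) ^ q / (q.factorial : ℝ) ≤ Real.exp q :=
      Real.pow_div_factorial_le_exp q hq0.le q
    have e3 : Real.exp (q * (1 + Real.log N - Real.log q)) =
        Real.exp q * ((N : ℝ) ^ q / (q : ℝ) ^ q) := by
      have e4 : (N : ℝ) ^ q = Real.exp (q * Real.log N) := by
        rw [mul_comm, Real.exp_mul, Real.exp_log hN0, Real.rpow_natCast]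
      have e5 : (q : ℝ) ^ q = Real.exp (q * Real.log q) := by
        rw [mul_comm (q : ℝ) (Real.log q), Real.exp_mul, Real.exp_log hq0, Real.rpow_natCast]
      rw [e4, e5, ← Real.exp_sub, ← Real.exp_add]
      congr 1; ring
    rw [e3]
    have hf : (0 : ℝ) < (q.factorial : ℝ) := by exact_mod_cast Nat.factorial_pos q
    have hqq : (0 : ℝ) < (q : ℝ) ^ q := by positivity
    calc (N.choose q : ℝ) ≤ (N : ℝ) ^ q / (q.factorial : ℝ) := e1
      _ = ((q : ℝ) ^ q / (q.factorial : ℝ)) * ((N : ℝ) ^ q / (q : ℝ) ^ q) := by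
          field_simp
      _ ≤ Real.exp q * ((N : ℝ) ^ q / (q : ℝ) ^ q) :=
          mul_le_mul_of_nonneg_right e2 (by positivity)
  have hpw : (1 / (1 + b : ℝ)) ^ (q.choose 2) = Real.exp (-((q : ℝ) * (q - 1) / 2 * lc)) := by
    rw [one_div, inv_pow, Real.exp_neg]
    congr 1
    have e1 : ((q.choose 2 : ℕ) : ℝ) = (q : ℝ) * (q - 1) / 2 := Nat.cast_choose_two ℝ q
    rw [← e1, mul_comm, Real.exp_mul, hlc, Real.exp_log hc0, Real.rpow_natCast]
  have hc : (1 + b : ℝ) = Real.exp lc := by rw [hlc, Real.exp_log hc0]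
  have hkey : lc + (q * (1 + Real.log N - Real.log q)) + -((q : ℝ) * (q - 1) / 2 * lc) < 0 := by
    have h5 : 2 * Real.log N - 2 * Real.log L + 3 * lc + 4 ≤ q * lc := by
      have h6 : (2 * L - 2 * Real.log L / lc + 3 + 4 / lc) * lc ≤ q * lc :=
        mul_le_mul_of_nonneg_right hq hlc0.le
      have h7 : (2 * L - 2 * Real.log L / lc + 3 + 4 / lc) * lc =
          2 * (L * lc) - 2 * Real.log L + 3 * lc + 4 := by
        field_simp
      rw [h7, hLN] at h6
      exact h6
    have h8 : 1 + Real.log N - Real.log q ≤ (q * lc - 3 * lc - 2) / 2 := by linarith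
    have h9 : q * (1 + Real.log N - Real.log q) ≤ q * ((q * lc - 3 * lc - 2) / 2) :=
      mul_le_mul_of_nonneg_left h8 hq0.le
    nlinarith [mul_le_mul_of_nonneg_right hq1 hlc0.le]
  calc (1 + b : ℝ) * ((N.choose q : ℝ) * (1 / (1 + b : ℝ)) ^ (q.choose 2))
      ≤ Real.exp lc * (Real.exp (q * (1 + Real.log N - Real.log q)) *
          Real.exp (-((q : ℝ) * (q - 1) / 2 * lc))) := by
        rw [← hc, hpw]
        exact mul_le_mul_of_nonneg_left
          (mul_le_mul_of_nonneg_right hch (Real.exp_pos _).le) hc0.le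
    _ = Real.exp (lc + (q * (1 + Real.log N - Real.log q)) + -((q : ℝ) * (q - 1) / 2 * lc)) := by
        rw [Real.exp_add, Real.exp_add]; ring
    _ < 1 := by
        rw [Real.exp_lt_one_iff]
        exact hkey

end Pool.Agent.W629.CG
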